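import Pool.Agent.Run7.h745.AH.Iface

/-!
# MP_501a10_an: pieces NUM, INJ, TRF
-/

set_option autoImplicit false

noncomputable section

namespace Run7.h705.AH

open Run7.h745 Run7.h745.AH Pool.Agent.H188R3

/-! ### NUM -/

lemma d_pos (n : ℕ) : 0 < d n := div_pos (by exact_mod_cast f_pos n) (by exact_mod_cast k_pos n)

lemma q_cast (n : ℕ) : (q n : ℝ) = 4 * (2 ^ (n + 3) * ((n : ℝ) + 1) ^ 3) := by
  unfold q qq; push_cast; ring

lemma d_rec (n : ℕ) : d (n + 1) * ((q n : ℝ) + 4 * (n + 1) ^ 3) = q n * d n := by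
  unfold d
  rw [f_succ, k_succ]
  have hk : (k n : ℝ) ≠ 0 := by exact_mod_cast (k_pos n).ne'
  have hq : ((q n : ℝ) + 4 * (n + 1) ^ 3) ≠ 0 := by
    have := q_pos n
    positivity
  push_cast
  field_simp

lemma d_rec' (n : ℕ) : d (n + 1) * (2 ^ (n + 3) + 1) = 2 ^ (n + 3) * d n := by
  have h := d_rec n
  rw [q_cast] at h
  have hn : (0 : ℝ) < 4 * ((n : ℝ) + 1) ^ 3 := by positivity
  apply mul_left_cancel₀ hn.ne'
  linear_combination h

lemma d_step (n : ℕ) : d (n + 1) ≤ d n := by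
  have h := d_rec' n
  have h1 := d_pos (n + 1)
  have h2 : (0 : ℝ) < 2 ^ (n + 3) := by positivity
  nlinarith

lemma d_anti {n₀ n : ℕ} (h : n₀ ≤ n) : d n ≤ d n₀ := by
  induction n, h using Nat.le_induction with
  | base => exact le_rfl
  | succ n _ ih => exact (d_step n).trans ih

lemma d_low {n₀ n : ℕ} (h : n₀ ≤ n) :
    1 - (1 / 2) ^ (n₀ + 2) + (1 / 2) ^ (n + 2) ≤ d n / d n₀ := by
  induction n, h using Nat.le_induction with
  | base => rw [div_self (d_pos n₀).ne']; linarith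
  | succ n hn ih =>
    have h0 := d_pos n₀
    have h1 : d n / d n₀ ≤ 1 := by
      rw [div_le_one h0]; exact d_anti hn
    have h2 : d (n + 1) / d n₀ * (2 ^ (n + 3) + 1) = 2 ^ (n + 3) * (d n / d n₀) := by
      have := d_rec' n
      field_simp
      linarith
    have h3 : (1 / 2 : ℝ) ^ (n + 3) * 2 ^ (n + 3) = 1 := by
      rw [← mul_pow]; norm_num
    have h4 : (0 : ℝ) < (1 / 2 : ℝ) ^ (n + 3) := by positivity
    have h5 : (0 : ℝ) < 2 ^ (n + 3) := by positivity
    have h6 : (1 / 2 : ℝ) ^ (n + 2) = 2 * (1 / 2 : ℝ) ^ (n + 3) := by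
      rw [pow_succ (1 / 2 : ℝ) (n + 2)]; ring
    have h7 : d n / d n₀ - (1 / 2 : ℝ) ^ (n + 3) ≤ d (n + 1) / d n₀ := by
      have hx : 0 < d (n + 1) / d n₀ := div_pos (d_pos _) h0
      have h8 : (d n / d n₀ - (1 / 2 : ℝ) ^ (n + 3)) * (2 ^ (n + 3) + 1) ≤
          d (n + 1) / d n₀ * (2 ^ (n + 3) + 1) := by
        rw [h2]
        nlinarith
      exact le_of_mul_le_mul_right h8 (by positivity)
    have h9 : (1 / 2 : ℝ) ^ (n + 1 + 2) = (1 / 2 : ℝ) ^ (n + 3) := rfl
    rw [h9]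
    linarith

theorem t_NUM : S_NUM := by
  refine ⟨fun n => ?_, d_rec, fun n₀ n h => ⟨d_anti h, ?_⟩⟩
  · have h0 : d 0 = 1 := by simp [d, f, k]
    constructor
    · have h := d_low (Nat.zero_le n)
      rw [h0, div_one] at h
      have h1 : (0 : ℝ) < (1 / 2 : ℝ) ^ (n + 2) := by positivity
      norm_num at h ⊢
      linarith
    · rw [← h0]; exact d_anti (Nat.zero_le n)
  · have h1 := d_low h
    have h2 : (0 : ℝ) < (1 / 2 : ℝ) ^ (n + 2) := by positivity
    linarith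

/-! ### INJ -/

/-- all of the sub-blocks are `y` -/
def rep (n t : ℕ) (y : X n t) : X (n + 1) t :=
  fun a : Fin (q n * f n) => y (finProdFinEquiv.symm a).2

lemma blk_rep (n t : ℕ) (y : X n t) (j : Fin (q n)) : blk n t j (rep n t y) = y := by
  funext i
  change y (finProdFinEquiv.symm (finProdFinEquiv (j, i))).2 = y i
  rw [Equiv.symm_apply_apply]

theorem t_INJ : S_INJ := by
  intro s n a b hab
  funext t
  ext1 y
  have ht : (t : ℕ) ≤ n := Nat.le_of_lt_succ t.2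
  have h1 := congrArg (fun c : A s (n + 1) => c ⟨t, Nat.lt_succ_of_lt t.2⟩ (rep n t y)) hab
  simp only [φ_apply] at h1
  have h2 : ∀ i i' : Fin (N s n t), (a t y).en i i' = (b t y).en i i' := by
    intro i i'
    have h3 := bd_same (pe s n t) (fun σ => a (src s n t σ) (lam s n t σ (rep n t y)))
      (Sum.inl (⟨ht⟩, ⟨0, q_pos n⟩)) i i'
    have h4 := bd_same (pe s n t) (fun σ => b (src s n t σ) (lam s n t σ (rep n t y)))
      (Sum.inl (⟨ht⟩, ⟨0, q_pos n⟩)) i i'
    have h5 : (a t (blk n t ⟨0, q_pos n⟩ (rep n t y))).en i i' =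
        (b t (blk n t ⟨0, q_pos n⟩ (rep n t y))).en i i' := by
      refine Eq.trans h3.symm (Eq.trans ?_ h4)
      exact congrArg (fun c => MA.en c _ _) h1
    rwa [blk_rep] at h5
  exact MA.ext h2

/-! ### TRF -/

lemma sum_en {I : Type} [Fintype I] [Nonempty I] (x : MA I ℂ) :
    ∑ i, x.en i i = (Fintype.card I : ℂ) * ntr x := by
  unfold ntr
  have h : (Fintype.card I : ℂ) ≠ 0 := by exact_mod_cast Fintype.card_ne_zero
  field_simp

lemma sum_bd {W : Type} [Fintype W] [DecidableEq W] {I : W → Type} [∀ σ, Fintype (I σ)]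
    [∀ σ, DecidableEq (I σ)] {J : Type} [Fintype J] [DecidableEq J] (e : J ≃ Σ σ, I σ)
    (x : ∀ σ, MA (I σ) ℂ) : ∑ p, (bd e x).en p p = ∑ σ, ∑ i, (x σ).en i i := by
  rw [← Equiv.sum_comp e.symm, Fintype.sum_sigma]
  exact Finset.sum_congr rfl fun σ _ => Finset.sum_congr rfl fun i _ => bd_same e x σ i i

theorem t_TRF : S_TRF := by
  intro s n a t' y
  have hN : (Fintype.card (Fin (N s (n + 1) t')) : ℂ) * nt (φ s n a) t' y =
      ∑ σ : Slot s n t', (N s n (src s n t' σ) : ℂ) *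
        ntr (a (src s n t' σ) (lam s n t' σ y)) := by
    have h1 := sum_en (φ s n a t' y)
    unfold nt
    rw [← h1, φ_apply, sum_bd]
    refine Finset.sum_congr rfl fun σ _ => ?_
    rw [sum_en, Fintype.card_fin]
  rw [Fintype.sum_sum_type, Fintype.sum_sum_type, Fintype.sum_prod_type, Fintype.sum_prod_type,
    Fintype.sum_sigma] at hN
  have hamp : (amp s t' : ℂ) ≠ 0 := by exact_mod_cast (amp_pos s t').ne'
  have hk : (k n : ℂ) ≠ 0 := by exact_mod_cast (k_pos n).ne'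
  have hc : ∀ c : Cn n, ∑ j : Fin (amp s t' * co s c.2.2),
      (N s n (src s n t' (Sum.inr (Sum.inr ⟨c, j⟩))) : ℂ) *
        ntr (a (src s n t' (Sum.inr (Sum.inr ⟨c, j⟩))) (lam s n t' (Sum.inr (Sum.inr ⟨c, j⟩)) y)) =
      amp s t' * k n * (4 * nt a c.2.2 (pt n c)) := by
    intro c
    have h1 : ∀ j : Fin (amp s t' * co s c.2.2),
      (N s n (src s n t' (Sum.inr (Sum.inr ⟨c, j⟩))) : ℂ) *
        ntr (a (src s n t' (Sum.inr (Sum.inr ⟨c, j⟩))) (lam s n t' (Sum.inr (Sum.inr ⟨c, j⟩)) y)) =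
        ((amp s c.2.2 * k n : ℕ) : ℂ) * nt a c.2.2 (pt n c) := fun j => rfl
    rw [Finset.sum_congr rfl fun j _ => h1 j, Finset.sum_const, Finset.card_univ,
      Fintype.card_fin, nsmul_eq_mul]
    have h2 : (amp s c.2.2 : ℂ) * co s c.2.2 = 4 := by exact_mod_cast amp_co s c.2.2
    push_cast
    linear_combination ((amp s t' : ℂ) * k n * nt a c.2.2 (pt n c)) * h2
  rw [Finset.sum_congr rfl fun c _ => hc c, ← Finset.mul_sum, ← Finset.mul_sum] at hN
  have hcard : (Fintype.card (Fin (N s (n + 1) t')) : ℂ) =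
      amp s t' * k n * ((q n : ℂ) + 4 * (n + 1) ^ 3) := by
    rw [Fintype.card_fin]
    unfold N
    rw [k_succ]
    push_cast
    ring
  rw [hcard] at hN
  apply mul_left_cancel₀ (mul_ne_zero hamp hk)
  rw [show (amp s t' : ℂ) * k n * (nt (φ s n a) t' y * ((q n : ℂ) + 4 * (n + 1) ^ 3)) =
    amp s t' * k n * ((q n : ℂ) + 4 * (n + 1) ^ 3) * nt (φ s n a) t' y by ring, hN]
  by_cases ht : (t' : ℕ) ≤ n
  · rw [dif_pos ht]
    have hu1 : (Finset.univ : Finset (PLift ((t' : ℕ) ≤ n))) = {⟨ht⟩} := by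
      ext x; simp
    have hu2 : (Finset.univ : Finset (PLift (n < (t' : ℕ)))) = ∅ := by
      rw [Finset.eq_empty_iff_forall_notMem]
      intro x; exact absurd x.down (not_lt.mpr ht)
    rw [hu1, hu2, Finset.sum_singleton, Finset.sum_empty, zero_add]
    have h1 : ∀ j : Fin (q n), (N s n (src s n t' (Sum.inl (⟨ht⟩, j))) : ℂ) *
        ntr (a (src s n t' (Sum.inl (⟨ht⟩, j))) (lam s n t' (Sum.inl (⟨ht⟩, j)) y)) =
        ((amp s t' * k n : ℕ) : ℂ) * nt a (ft ht) (blk n t' j y) := fun j => rfl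
    rw [Finset.sum_congr rfl fun j _ => h1 j, ← Finset.mul_sum]
    push_cast
    ring
  · rw [dif_neg ht]
    have hu1 : (Finset.univ : Finset (PLift ((t' : ℕ) ≤ n))) = ∅ := by
      rw [Finset.eq_empty_iff_forall_notMem]
      intro x; exact absurd x.down ht
    have hu2 : (Finset.univ : Finset (PLift (n < (t' : ℕ)))) = {⟨not_le.mp ht⟩} := by
      ext x; simp
    rw [hu1, hu2, Finset.sum_singleton, Finset.sum_empty, zero_add]
    have h1 : ∀ j : Fin (amp s t' * (co s 0 * qq n)),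
        (N s n (src s n t' (Sum.inr (Sum.inl (⟨not_le.mp ht⟩, j)))) : ℂ) *
        ntr (a (src s n t' (Sum.inr (Sum.inl (⟨not_le.mp ht⟩, j))))
          (lam s n t' (Sum.inr (Sum.inl (⟨not_le.mp ht⟩, j))) y)) =
        ((amp s 0 * k n : ℕ) : ℂ) * nt a 0 (x0 n 0) := fun j => rfl
    rw [Finset.sum_congr rfl fun j _ => h1 j, Finset.sum_const, Finset.card_univ,
      Fintype.card_fin, nsmul_eq_mul]
    have h2 : (amp s 0 : ℂ) * co s 0 = 4 := by exact_mod_cast amp_co s 0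
    have h3 : (q n : ℂ) = 4 * qq n := by unfold q; push_cast; ring
    rw [h3]
    push_cast
    linear_combination ((amp s t' : ℂ) * k n * qq n * nt a 0 (x0 n 0)) * h2

end Run7.h705.AH
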